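import Pool.Agent.H95.K3.Defs
import Pool.Agent.H57.ZP.ThreeDefs

/-!
# Cycle class maps and completions of partial matrices: definitions
-/

set_option autoImplicit false

open CategoryTheory AlgebraicGeometry Pool.Agent.Y116.UV Pool.Agent.H57.ZP

namespace Pool.Agent.H57.GM

/-- A partial square matrix over `F`. -/
structure PMat (F : Type) where
  /-- the size -/
  n : ℕ
  /-- the prescribed elements -/
  Z : Fin n → Fin n → Option F

/-- The scheme of the invertible completions of the partial matrix `g`. -/
noncomputable def PMat.scheme {F : Type} [Field F] (g : PMat F) : Sch F := glC g.Z

/-- A partial matrix over `F`. -/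
structure RMat (F : Type) where
  /-- the number of rows -/
  m : ℕ
  /-- the number of columns -/
  n : ℕ
  /-- the prescribed elements -/
  Z : Fin m → Fin n → Option F

/-- The scheme of the completions of rank at most three of the partial matrix `g`. -/
noncomputable def RMat.scheme {F : Type} [Field F] (g : RMat F) : Sch F := rkC g.Z

/-- A square zero pattern: a finite set of places. -/
structure ZPat where
  /-- the size -/
  n : ℕ
  /-- the places of the zeros -/
  Z : Finset (Fin n × Fin n)

/-- The scheme of the invertible matrices with zeros at the places of `g`. -/
noncomputable def ZPat.scheme (F : Type) [Field F] (g : ZPat) : Sch F := glS F g.Z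

/-- A zero pattern: a finite set of places. -/
structure RPat where
  /-- the number of rows -/
  m : ℕ
  /-- the number of columns -/
  n : ℕ
  /-- the places of the zeros -/
  Z : Finset (Fin m × Fin n)

/-- The scheme of the matrices of rank at most three with zeros at the places of `g`. -/
noncomputable def RPat.scheme (F : Type) [Field F] (g : RPat) : Sch F := rkS F g.Z

end Pool.Agent.H57.GM
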