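import Pool.Agent.H57.GM.Defs
import Pool.Agent.H57.ZP.Three
import Pool.Agent.H57.ZP.KMain
import Pool.Agent.H95.PR.Main

/-!
# Cycle class maps and finite lists of schemes from a universal family
-/

set_option autoImplicit false
set_option linter.unusedSectionVars false

open CategoryTheory CategoryTheory.Limits AlgebraicGeometry MvPolynomial Pool.Agent.Y116.UV
  Pool.Agent.Z125.UN Pool.Agent.Q193.LT Pool.Agent.Q49.WU Pool.Agent.Q68.OV Pool.Agent.W5h68.SP
  Pool.Agent.H95.DC Pool.Agent.H95.WC Pool.Agent.H95.PR Pool.Agent.H57.ZP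

universe w w' u q

namespace Pool.Agent.H57.GM

section lists

variable {F : Type} [Field F] {ι : Type q} (o : ι → Prop) (s : ι → Sch F)

/-- Every property with the closure properties `Bnd` which is true for the schemes of a finite list is true
for `X`. -/
def ReachedL (X : Sch F) : Prop :=
  ∃ L : List ι, (∀ t ∈ L, o t) ∧ ∀ Q : Sch F → Prop, Bnd True Q → (∀ t ∈ L, Q (s t)) → Q X

theorem bnd_reachedL : Bnd True (ReachedL o s) := by
  have two : ∀ {X Y Z : Sch F}, (∀ Q : Sch F → Prop, Bnd True Q → Q X → Q Y → Q Z) →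
      ReachedL o s X → ReachedL o s Y → ReachedL o s Z := by
    rintro X Y Z h ⟨L, h0, h1⟩ ⟨L', h0', h2⟩
    exact ⟨L ++ L', fun t ht => (List.mem_append.mp ht).elim (h0 t) (h0' t),
      fun Q hQ h3 => h Q hQ (h1 Q hQ fun t ht => h3 t (List.mem_append_left _ ht))
      (h2 Q hQ fun t ht => h3 t (List.mem_append_right _ ht))⟩
  have one : ∀ {X Y : Sch F}, (∀ Q : Sch F → Prop, Bnd True Q → Q X → Q Y) →
      ReachedL o s X → ReachedL o s Y := by
    rintro X Y h ⟨L, h0, h1⟩
    exact ⟨L, h0, fun Q hQ h3 => h Q hQ (h1 Q hQ h3)⟩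
  exact
  { iso := fun hX e => one fun Q hQ => hQ.iso hX e
    total := fun i j hX ht => two fun Q hQ => hQ.total i j hX ht
    opened := fun i j hX ht => two fun Q hQ => hQ.opened i j hX ht
    closed := fun i j hX ht => two fun Q hQ => hQ.closed i j hX ht
    space := fun n => ⟨[], by simp, fun Q hQ _ => hQ.space n⟩
    jouanolou := fun B _ _ _ l f U j hj hr h =>
      one (X := aff F (Jou f)) (Y := U) (fun Q hQ h1 => hQ.jouanolou B l f U j hj hr h1) h
    torus := fun B _ _ _ h => one (X := aff F (LaurentPolynomial B)) (Y := aff F B)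
      (fun Q hQ h1 => hQ.torus B h1) h
    bundle := fun B _ _ _ l f U j hj hr h =>
      one (X := U) (Y := aff F (Jou f)) (fun Q hQ h1 => hQ.bundle B l f U j hj hr h1) h }

lemma reachedL_mem (t : ι) (ht : o t) : ReachedL o s (s t) := by
  refine ⟨[t], fun t' ht' => ?_, fun Q _ h1 => h1 t (List.mem_singleton.mpr rfl)⟩
  rw [List.mem_singleton.mp ht']
  exact ht

end lists

section main

variable {F : Type} [Field F] [PerfectField F]

/-- **The classes of one smooth projective scheme, and finite lists.** The lists `L` depend only on `S` and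
on the family. -/
theorem reach_list {S : Sch F} (n1 : ℕ) (m0 : ℤ) (hS : SmoothProj S) {ι : Type q} (s : ι → Sch F)
    (ft : ∀ g, FT True (s g)) (L : List ι)
    (hL : ∀ Q : Sch F → Prop, Bnd True Q → (∀ t ∈ L, Q (s t)) → Q S)
    (E : Type w') [CommRing E] (D : Reach.{w, w', u} F E S m0)
    (C : PairData.{w} F (ℤ × ℤ) E) (hD : IsReach D) (hC : IsWeightPair C) (hg : WeightGen C)
    (bij : ∀ Y, SmoothProj Y → ∀ m, (BijAt C Prod.fst m Y ↔ Closed D m Y))
    (low : ∀ Y : Sch F, SmoothProj Y → topologicalKrullDim Y.left ≤ n1 → BijAll C Y) :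
    Holds D ↔ ∀ g ∈ L, BijAll C (s g) := by
  classical
  have point : BijAll C (aff F F) := by
    refine hg n1 low (aff F F) (ft_aff True) ?_
    rw [topDim_aff, ringKrullDim_eq_zero_of_field]
    exact_mod_cast Nat.zero_le n1
  have hB : Bnd True (BijAll C) := bnd_pair hC point
  have hall' : ∀ X : Sch F, BijAll C X ↔ ∀ m, BijAt C Prod.fst m X :=
    fun X => ⟨fun h _ j _ => h j, fun h j => h j.1 j rfl⟩
  have hst' : Holds D → ∀ Y, SmoothProj Y → BijAll C Y := fun h Y hY =>
    (hall' Y).mpr fun m => (bij Y hY m).mpr fun c x hx => hD.act_mem m Y hY c x (h x hx)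
  have hback : BijAt C Prod.fst m0 S → Holds D := by
    intro h x hx
    have h1 := (bij S hS m0).mp h D.one x hx
    rwa [hD.act_one] at h1
  have hall : Holds D → ∀ X : Sch F, FT True X → BijAll C X := fun h X hX =>
    (all_iff hB).mpr (fun a b c T => (wg_all hg hC point).mp (hst' h) a b c T) X hX
  exact ⟨fun h g _ => hall h _ (ft g), fun h => hback ((hall' S).mp (hL _ hB h) m0)⟩

lemma ft_pmat (g : PMat F) : FT True g.scheme := by
  have h1 : Algebra.FiniteType F (Localization.Away (fillMat g.Z).det) :=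
    Algebra.FiniteType.trans (S := MvPolynomial {x : Fin g.n × Fin g.n // g.Z x.1 x.2 = none} F)
      inferInstance inferInstance
  exact ft_aff True

lemma ft_rmat (g : RMat F) : FT True g.scheme := ft_aff True

lemma ft_zpat (g : ZPat) : FT True (g.scheme F) := by
  have h1 : Algebra.FiniteType F (Localization.Away (genMat F g.Z).det) :=
    Algebra.FiniteType.trans (S := MvPolynomial {x : Fin g.n × Fin g.n // x ∉ g.Z} F) inferInstance
      inferInstance
  exact ft_aff True

lemma ft_rpat (g : RPat) : FT True (g.scheme F) := ft_aff True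

/-- **Finite lists of partial matrices.** -/
theorem reach_mat {S : Sch F} (hS : SmoothProj S) (n1 : ℕ) (m0 : ℤ) :
    ∃ (L : List (PMat F)) (L' : List (RMat F)) (G : List ZPat) (G' : List RPat),
      (∀ g ∈ L, Three g.Z) ∧ (∀ g ∈ G, ThreeZ g.Z) ∧
      ∀ (E : Type w') [CommRing E] (D : Reach.{w, w', u} F E S m0)
        (C : PairData.{w} F (ℤ × ℤ) E), IsReach D → IsWeightPair C → WeightGen C →
        (∀ Y, SmoothProj Y → ∀ m, (BijAt C Prod.fst m Y ↔ Closed D m Y)) →
        (∀ Y : Sch F, SmoothProj Y → topologicalKrullDim Y.left ≤ n1 → BijAll C Y) →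
        (Holds D ↔ ∀ g ∈ L, BijAll C g.scheme) ∧
        (Holds D ↔ ∀ g ∈ L', BijAll C g.scheme) ∧
        (Frac F → (Holds D ↔ ∀ g ∈ G, BijAll C (g.scheme F)) ∧
          (Holds D ↔ ∀ g ∈ G', BijAll C (g.scheme F))) := by
  classical
  obtain ⟨L, hL1, hL⟩ : ReachedL (fun g : PMat F => Three g.Z) (fun g => g.scheme) S :=
    universal_glC3 (bnd_reachedL _ _) (fun n Z hZ =>
      reachedL_mem (fun g : PMat F => Three g.Z) (fun g => g.scheme) ⟨n, Z⟩ hZ) S hS.ft
  obtain ⟨L', -, hL'⟩ : ReachedL (fun _ : RMat F => True) (fun g => g.scheme) S :=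
    universal_rkC (bnd_reachedL _ _) (fun m n Z =>
      reachedL_mem (fun _ : RMat F => True) (fun g => g.scheme) ⟨m, n, Z⟩ trivial) S hS.ft
  have hG0 : ∃ G : List ZPat, (∀ g ∈ G, ThreeZ g.Z) ∧ (Frac F →
      ∀ Q : Sch F → Prop, Bnd True Q → (∀ g ∈ G, Q (g.scheme F)) → Q S) := by
    by_cases hF : Frac F
    · obtain ⟨G, hG1, hG⟩ : ReachedL (fun g : ZPat => ThreeZ g.Z) (fun g => g.scheme F) S :=
        universal_gl3 hF (bnd_reachedL _ _) (fun n Z hZ =>
          reachedL_mem (fun g : ZPat => ThreeZ g.Z) (fun g => g.scheme F) ⟨n, Z⟩ hZ) S hS.ft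
      exact ⟨G, hG1, fun _ => hG⟩
    · exact ⟨[], by simp, fun h => absurd h hF⟩
  have hG0' : ∃ G : List RPat, (Frac F →
      ∀ Q : Sch F → Prop, Bnd True Q → (∀ g ∈ G, Q (g.scheme F)) → Q S) := by
    by_cases hF : Frac F
    · obtain ⟨G, -, hG⟩ : ReachedL (fun _ : RPat => True) (fun g => g.scheme F) S :=
        universal_rk hF (bnd_reachedL _ _) (fun m n Z =>
          reachedL_mem (fun _ : RPat => True) (fun g => g.scheme F) ⟨m, n, Z⟩ trivial) S hS.ft
      exact ⟨G, fun _ => hG⟩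
    · exact ⟨[], fun h => absurd h hF⟩
  obtain ⟨G, hG1, hG⟩ := hG0
  obtain ⟨G', hG'⟩ := hG0'
  refine ⟨L, L', G, G', hL1, hG1, ?_⟩
  intro E _ D C hD hC hg bij low
  exact ⟨reach_list n1 m0 hS _ ft_pmat L hL E D C hD hC hg bij low,
    reach_list n1 m0 hS _ ft_rmat L' hL' E D C hD hC hg bij low,
    fun hF => ⟨reach_list n1 m0 hS _ ft_zpat G (hG hF) E D C hD hC hg bij low,
      reach_list n1 m0 hS _ ft_rpat G' (hG' hF) E D C hD hC hg bij low⟩⟩

end main

end Pool.Agent.H57.GM
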